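import Mathlib

/-!
The finite algebra of relations attached to a labelled set with two commuting maps, and what
its representations force.
-/

namespace Pool.Agent.Helper77.FRP

universe u v w x

/-- composition of heterogeneous relations -/
def hc {α : Type u} {β : Type v} {γ : Type w} (r : α → β → Prop) (s : β → γ → Prop) :
    α → γ → Prop := fun x z => ∃ y, r x y ∧ s y z

theorem hc_assoc {α : Type u} {β : Type v} {γ : Type w} {δ : Type x}
    (r : α → β → Prop) (s : β → γ → Prop) (t : γ → δ → Prop) :
    hc (hc r s) t = hc r (hc s t) := by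
  funext a d
  apply propext
  constructor
  · rintro ⟨c, ⟨b, h1, h2⟩, h3⟩
    exact ⟨b, h1, c, h2, h3⟩
  · rintro ⟨b, h1, c, h2, h3⟩
    exact ⟨c, ⟨b, h1, h2⟩, h3⟩

/-- all unions of subfamilies of a family of relations -/
def spn {α : Type u} {β : Type v} (G : Set (α → β → Prop)) : Set (α → β → Prop) :=
  (fun A : Set (α → β → Prop) => fun x y => ∃ a ∈ A, a x y) '' {A | A ⊆ G}

theorem spn_finite {α : Type u} {β : Type v} {G : Set (α → β → Prop)} (hG : G.Finite) :
    (spn G).Finite := by
  apply Set.Finite.image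
  exact hG.finite_subsets

theorem subset_spn {α : Type u} {β : Type v} {G : Set (α → β → Prop)} {r} (h : r ∈ G) :
    r ∈ spn G := by
  refine ⟨{r}, by simpa using h, ?_⟩
  funext x y
  simp

theorem bot_spn {α : Type u} {β : Type v} (G : Set (α → β → Prop)) :
    (fun _ _ => False) ∈ spn G := by
  refine ⟨∅, by simp, ?_⟩
  funext x y
  simp

theorem or_spn {α : Type u} {β : Type v} {G : Set (α → β → Prop)} {r s}
    (hr : r ∈ spn G) (hs : s ∈ spn G) : (fun x y => r x y ∨ s x y) ∈ spn G := by
  obtain ⟨A, hA, rfl⟩ := hr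
  obtain ⟨B, hB, rfl⟩ := hs
  refine ⟨A ∪ B, Set.union_subset hA hB, ?_⟩
  funext x y
  apply propext
  constructor
  · rintro ⟨a, ha | ha, h⟩
    · exact Or.inl ⟨a, ha, h⟩
    · exact Or.inr ⟨a, ha, h⟩
  · rintro (⟨a, ha, h⟩ | ⟨a, ha, h⟩)
    · exact ⟨a, Or.inl ha, h⟩
    · exact ⟨a, Or.inr ha, h⟩

theorem hc_spn {α : Type u} {β : Type v} {γ : Type w} {G : Set (α → β → Prop)}
    {G' : Set (β → γ → Prop)} {G'' : Set (α → γ → Prop)}
    (h : ∀ a ∈ G, ∀ b ∈ G', hc a b ∈ G'') {r s} (hr : r ∈ spn G) (hs : s ∈ spn G') :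
    hc r s ∈ spn G'' := by
  obtain ⟨A, hA, rfl⟩ := hr
  obtain ⟨B, hB, rfl⟩ := hs
  refine ⟨{t | ∃ a ∈ A, ∃ b ∈ B, t = hc a b}, ?_, ?_⟩
  · rintro t ⟨a, ha, b, hb, rfl⟩
    exact h a (hA ha) b (hB hb)
  · funext x z
    apply propext
    constructor
    · rintro ⟨t, ⟨a, ha, b, hb, rfl⟩, y, h1, h2⟩
      exact ⟨y, ⟨a, ha, h1⟩, b, hb, h2⟩
    · rintro ⟨y, ⟨a, ha, h1⟩, b, hb, h2⟩
      exact ⟨hc a b, ⟨a, ha, b, hb, rfl⟩, y, h1, h2⟩

/-- the middle sort: the points of `R` and two auxiliary points -/
inductive Mid (R : Type) : Type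
  | real : R → Mid R
  | jp : Mid R
  | jn : Mid R

open Mid

variable {R τ : Type}

/-- one step: follow `f` inside `R`, or use the auxiliary points -/
def G1 (f : R → R) : Mid R → Mid R → Prop
  | real y, real u => u = f y
  | real _, jp => True
  | real _, jn => False
  | jp, real _ => False
  | jp, jp => True
  | jp, jn => True
  | jn, _ => True

/-- two steps -/
def G2 (f : R → R) : Mid R → Mid R → Prop
  | real y, real u => u = f y
  | real _, jp => True
  | real _, jn => True
  | jp, _ => True
  | jn, _ => True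

/-- the full relation on the middle sort -/
def GE : Mid R → Mid R → Prop := fun _ _ => True

theorem G1_G1 (f g : R → R) : hc (G1 f) (G1 g) = G2 (g ∘ f) := by
  funext x z
  apply propext
  cases x with
  | real y =>
    cases z with
    | real u =>
      constructor
      · rintro ⟨w, h1, h2⟩
        cases w with
        | real w =>
          change w = f y at h1
          change u = g w at h2
          change u = g (f y)
          rw [h2, h1]
        | jp => exact h2.elim
        | jn => exact h1.elim
      · intro h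
        exact ⟨real (f y), rfl, h⟩
    | jp => exact ⟨fun _ => trivial, fun _ => ⟨jp, trivial, trivial⟩⟩
    | jn => exact ⟨fun _ => trivial, fun _ => ⟨jp, trivial, trivial⟩⟩
  | jp =>
    constructor
    · intro _
      cases z <;> trivial
    · intro _
      refine ⟨jn, trivial, ?_⟩
      cases z <;> trivial
  | jn =>
    constructor
    · intro _
      cases z <;> trivial
    · intro _
      refine ⟨jn, trivial, ?_⟩
      cases z <;> trivial

theorem to_GE {a b : Mid R → Mid R → Prop} (h : ∀ x z, ∃ y, a x y ∧ b y z) :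
    hc a b = GE := by
  funext x z
  exact propext ⟨fun _ => trivial, fun _ => h x z⟩

theorem G1_to_jp (f : R → R) (x : Mid R) : G1 f x jp := by cases x <;> trivial

theorem G1_from_jn (f : R → R) (x : Mid R) : G1 f jn x := by cases x <;> trivial

theorem G2_to_jp (f : R → R) (x : Mid R) : G2 f x jp := by cases x <;> trivial

theorem G2_to_jn (f : R → R) (x : Mid R) : G2 f x jn := by cases x <;> trivial

theorem G2_from_jp (f : R → R) (x : Mid R) : G2 f jp x := by cases x <;> trivial

theorem G2_from_jn (f : R → R) (x : Mid R) : G2 f jn x := by cases x <;> trivial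

/-- the products of the two step relations -/
def midGen (h v : R → R) : Set (Mid R → Mid R → Prop) :=
  {G1 h, G1 v, G2 (h ∘ h), G2 (v ∘ h), G2 (v ∘ v), GE}

theorem midGen_closed (h v : R → R) (hv : h ∘ v = v ∘ h) :
    ∀ a ∈ midGen h v, ∀ b ∈ midGen h v, hc a b ∈ midGen h v := by
  have key : ∀ a ∈ midGen h v, (∃ f, a = G1 f ∧ (f = h ∨ f = v)) ∨ (∃ f, a = G2 f) ∨ a = GE := by
    rintro a (rfl | rfl | rfl | rfl | rfl | rfl)
    · exact Or.inl ⟨h, rfl, Or.inl rfl⟩
    · exact Or.inl ⟨v, rfl, Or.inr rfl⟩
    · exact Or.inr (Or.inl ⟨_, rfl⟩)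
    · exact Or.inr (Or.inl ⟨_, rfl⟩)
    · exact Or.inr (Or.inl ⟨_, rfl⟩)
    · exact Or.inr (Or.inr rfl)
  have hE : (GE : Mid R → Mid R → Prop) ∈ midGen h v := by simp [midGen]
  intro a ha b hb
  rcases key a ha with ⟨f, rfl, hf⟩ | ⟨f, rfl⟩ | rfl
  · rcases key b hb with ⟨g, rfl, hg⟩ | ⟨g, rfl⟩ | rfl
    · rw [G1_G1]
      rcases hf with rfl | rfl <;> rcases hg with rfl | rfl
      · simp [midGen]
      · simp [midGen]
      · rw [hv]; simp [midGen]
      · simp [midGen]
    · rw [to_GE]
      · exact hE
      · exact fun x z => ⟨jp, G1_to_jp f x, G2_from_jp g z⟩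
    · rw [to_GE]
      · exact hE
      · exact fun x z => ⟨jp, G1_to_jp f x, trivial⟩
  · rcases key b hb with ⟨g, rfl, hg⟩ | ⟨g, rfl⟩ | rfl
    · rw [to_GE]
      · exact hE
      · exact fun x z => ⟨jn, G2_to_jn f x, G1_from_jn g z⟩
    · rw [to_GE]
      · exact hE
      · exact fun x z => ⟨jn, G2_to_jn f x, G2_from_jn g z⟩
    · rw [to_GE]
      · exact hE
      · exact fun x z => ⟨jn, G2_to_jn f x, trivial⟩
  · rcases key b hb with ⟨g, rfl, hg⟩ | ⟨g, rfl⟩ | rfl
    · rw [to_GE]
      · exact hE
      · exact fun x z => ⟨jn, trivial, G1_from_jn g z⟩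
    · rw [to_GE]
      · exact hE
      · exact fun x z => ⟨jn, trivial, G2_from_jn g z⟩
    · rw [to_GE]
      · exact hE
      · exact fun x z => ⟨jn, trivial, trivial⟩

/-- initial row vector of the points of `R` with label in `I` -/
def vT (ω : R → τ) (I : Set τ) : Unit → Mid R → Prop := fun _ x => ∃ y, x = real y ∧ ω y ∈ I

/-- the row vector of the first auxiliary point -/
def vZ : Unit → Mid R → Prop := fun _ x => x = jp

/-- final column vector of the points of `R` with label in `I` -/
def vP (ω : R → τ) (I : Set τ) : Mid R → Unit → Prop := fun x _ => ∃ y, x = real y ∧ ω y ∈ I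

/-- the column vector of the second auxiliary point -/
def vW : Mid R → Unit → Prop := fun x _ => x = jn

/-- generating row vectors -/
def rowStart (ω : R → τ) : Set (Unit → Mid R → Prop) :=
  insert vZ (Set.range fun t : τ => vT ω {t})

/-- generating column vectors -/
def colEnd (ω : R → τ) : Set (Mid R → Unit → Prop) :=
  insert vW (Set.range fun t : τ => vP ω {t})

/-- row vectors -/
def rowGen (h v : R → R) (ω : R → τ) : Set (Unit → Mid R → Prop) :=
  rowStart ω ∪ Set.image2 hc (rowStart ω) (midGen h v)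

/-- column vectors -/
def colGen (h v : R → R) (ω : R → τ) : Set (Mid R → Unit → Prop) :=
  colEnd ω ∪ Set.image2 hc (midGen h v) (colEnd ω)

theorem midGen_finite (h v : R → R) : (midGen h v).Finite := by
  simp [midGen]

theorem rowGen_finite [Finite τ] (h v : R → R) (ω : R → τ) : (rowGen h v ω).Finite := by
  have h1 : (rowStart ω).Finite := (Set.finite_range _).insert _
  exact h1.union (Set.Finite.image2 _ h1 (midGen_finite h v))

theorem colGen_finite [Finite τ] (h v : R → R) (ω : R → τ) : (colGen h v ω).Finite := by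
  have h1 : (colEnd ω).Finite := (Set.finite_range _).insert _
  exact h1.union (Set.Finite.image2 _ (midGen_finite h v) h1)

theorem rowGen_closed (h v : R → R) (hv : h ∘ v = v ∘ h) (ω : R → τ) :
    ∀ a ∈ rowGen h v ω, ∀ b ∈ midGen h v, hc a b ∈ rowGen h v ω := by
  rintro a (ha | ⟨s, hs, m, hm, rfl⟩) b hb
  · exact Or.inr ⟨a, ha, b, hb, rfl⟩
  · rw [hc_assoc]
    exact Or.inr ⟨s, hs, _, midGen_closed h v hv m hm b hb, rfl⟩

theorem colGen_closed (h v : R → R) (hv : h ∘ v = v ∘ h) (ω : R → τ) :
    ∀ b ∈ midGen h v, ∀ a ∈ colGen h v ω, hc b a ∈ colGen h v ω := by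
  rintro b hb a (ha | ⟨m, hm, s, hs, rfl⟩)
  · exact Or.inr ⟨b, hb, a, ha, rfl⟩
  · rw [← hc_assoc]
    exact Or.inr ⟨_, midGen_closed h v hv b hb m hm, s, hs, rfl⟩

/-- block relations: a row vector, a relation on the middle sort, a column vector, and a
proposition -/
abbrev Blk (R : Type) : Type :=
  (Unit → Mid R → Prop) × (Mid R → Mid R → Prop) × (Mid R → Unit → Prop) × Prop

/-- the blocks used -/
def blkSet (h v : R → R) (ω : R → τ) : Set (Blk R) :=
  spn (rowGen h v ω) ×ˢ (spn (midGen h v) ×ˢ (spn (colGen h v ω) ×ˢ Set.univ))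

theorem blkSet_finite [Finite τ] (h v : R → R) (ω : R → τ) : (blkSet h v ω).Finite :=
  (spn_finite (rowGen_finite h v ω)).prod
    ((spn_finite (midGen_finite h v)).prod
      ((spn_finite (colGen_finite h v ω)).prod Set.finite_univ))

/-- sum of blocks -/
def blkAdd (a b : Blk R) : Blk R :=
  (fun x y => a.1 x y ∨ b.1 x y, fun x y => a.2.1 x y ∨ b.2.1 x y,
    fun x y => a.2.2.1 x y ∨ b.2.2.1 x y, a.2.2.2 ∨ b.2.2.2)

/-- product of blocks -/
def blkMul (a b : Blk R) : Blk R :=
  (hc a.1 b.2.1, hc a.2.1 b.2.1, hc a.2.1 b.2.2.1, hc a.1 b.2.2.1 () ())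

theorem blkAdd_mem {h v : R → R} {ω : R → τ} {a b : Blk R} (ha : a ∈ blkSet h v ω)
    (hb : b ∈ blkSet h v ω) : blkAdd a b ∈ blkSet h v ω :=
  ⟨or_spn ha.1 hb.1, or_spn ha.2.1 hb.2.1, or_spn ha.2.2.1 hb.2.2.1, trivial⟩

theorem blkMul_mem {h v : R → R} (hv : h ∘ v = v ∘ h) {ω : R → τ} {a b : Blk R}
    (ha : a ∈ blkSet h v ω) (hb : b ∈ blkSet h v ω) : blkMul a b ∈ blkSet h v ω :=
  ⟨hc_spn (rowGen_closed h v hv ω) ha.1 hb.2.1,
    hc_spn (midGen_closed h v hv) ha.2.1 hb.2.1,
    hc_spn (colGen_closed h v hv ω) ha.2.1 hb.2.2.1, trivial⟩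

/-- the base of the infinite representation -/
inductive Base (R : Type) : Type
  | src : Base R
  | mid : Mid R → Base R
  | tgt : Base R
  | sink : Base R

/-- the relation attached to a block; every point is also related to the sink -/
def rel (a : Blk R) : Base R → Base R → Prop
  | _, .sink => True
  | .src, .mid u => a.1 () u
  | .mid y, .mid u => a.2.1 y u
  | .mid y, .tgt => a.2.2.1 y ()
  | .src, .tgt => a.2.2.2
  | .src, .src => False
  | .mid _, .src => False
  | .tgt, .src => False
  | .tgt, .mid _ => False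
  | .tgt, .tgt => False
  | .sink, .src => False
  | .sink, .mid _ => False
  | .sink, .tgt => False

theorem rel_sink (a : Blk R) (x : Base R) : rel a x .sink := by cases x <;> trivial

theorem rel_injective : Function.Injective (rel : Blk R → Base R → Base R → Prop) := by
  intro a b hab
  have h : ∀ x y, rel a x y = rel b x y := fun x y => by rw [hab]
  obtain ⟨a1, a2, a3, a4⟩ := a
  obtain ⟨b1, b2, b3, b4⟩ := b
  have h1 : a1 = b1 := by
    funext x y
    exact h .src (.mid y)
  have h2 : a2 = b2 := by
    funext x y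
    exact h (.mid x) (.mid y)
  have h3 : a3 = b3 := by
    funext x y
    exact h (.mid x) .tgt
  have h4 : a4 = b4 := h .src .tgt
  rw [h1, h2, h3, h4]

theorem rel_add (a b : Blk R) (x y : Base R) :
    rel (blkAdd a b) x y ↔ rel a x y ∨ rel b x y := by
  cases x <;> cases y <;> simp [rel, blkAdd]

theorem rel_mul (a b : Blk R) (x z : Base R) :
    rel (blkMul a b) x z ↔ ∃ y, rel a x y ∧ rel b y z := by
  constructor
  · intro h
    cases z with
    | sink => exact ⟨.sink, rel_sink a x, rel_sink b _⟩
    | src => cases x <;> exact h.elim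
    | mid u =>
      cases x with
      | src =>
        obtain ⟨w, h1, h2⟩ := h
        exact ⟨.mid w, h1, h2⟩
      | mid y =>
        obtain ⟨w, h1, h2⟩ := h
        exact ⟨.mid w, h1, h2⟩
      | tgt => exact h.elim
      | sink => exact h.elim
    | tgt =>
      cases x with
      | src =>
        obtain ⟨w, h1, h2⟩ := h
        exact ⟨.mid w, h1, h2⟩
      | mid y =>
        obtain ⟨w, h1, h2⟩ := h
        exact ⟨.mid w, h1, h2⟩
      | tgt => exact h.elim
      | sink => exact h.elim
  · rintro ⟨y, h1, h2⟩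
    cases z with
    | sink => exact rel_sink _ x
    | src => cases y <;> exact h2.elim
    | mid u =>
      cases y with
      | src => cases x <;> exact h1.elim
      | mid y =>
        cases x with
        | src => exact ⟨y, h1, h2⟩
        | mid x => exact ⟨y, h1, h2⟩
        | tgt => exact h1.elim
        | sink => exact h1.elim
      | tgt => exact h2.elim
      | sink => exact h2.elim
    | tgt =>
      cases y with
      | src => cases x <;> exact h1.elim
      | mid y =>
        cases x with
        | src => exact ⟨y, h1, h2⟩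
        | mid x => exact ⟨y, h1, h2⟩
        | tgt => exact h1.elim
        | sink => exact h1.elim
      | tgt => exact h2.elim
      | sink => exact h2.elim

theorem base_countable [Countable R] : Countable (Base R) := by
  let f : Base R → Option (Option (Option (Option (Option R)))) := fun x =>
    match x with
    | .src => none
    | .tgt => some none
    | .sink => some (some none)
    | .mid .jp => some (some (some none))
    | .mid .jn => some (some (some (some none)))
    | .mid (.real r) => some (some (some (some (some r))))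
  apply Function.Injective.countable (f := f)
  intro x y hxy
  rcases x with _ | (_ | _ | _) | _ | _ <;> rcases y with _ | (_ | _ | _) | _ | _ <;>
    simp_all [f]

end Pool.Agent.Helper77.FRP
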