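import Pool.Agent.Helper77.FRP.Algebra

/-!
What a representation of the finite algebra forces: a grid-like structure on its base.
-/

namespace Pool.Agent.Helper77.FRP

universe u

open Mid

variable {R τ : Type}

/-- the finite algebra -/
abbrev Alg (h v : R → R) (ω : R → τ) : Type := ↥(blkSet h v ω)

/-- sum -/
def algAdd {h v : R → R} {ω : R → τ} (a b : Alg h v ω) : Alg h v ω :=
  ⟨blkAdd a.1 b.1, blkAdd_mem a.2 b.2⟩

/-- product -/
def algMul {h v : R → R} (hv : h ∘ v = v ∘ h) {ω : R → τ} (a b : Alg h v ω) : Alg h v ω :=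
  ⟨blkMul a.1 b.1, blkMul_mem hv a.2 b.2⟩

/-- the zero element -/
def algZero (h v : R → R) (ω : R → τ) : Alg h v ω :=
  ⟨(fun _ _ => False, fun _ _ => False, fun _ _ => False, False),
    bot_spn _, bot_spn _, bot_spn _, trivial⟩

theorem vT_mem (h v : R → R) (ω : R → τ) (I : Set τ) : vT ω I ∈ spn (rowGen h v ω) := by
  refine ⟨(fun t : τ => vT ω {t}) '' I, ?_, ?_⟩
  · rintro _ ⟨t, _, rfl⟩
    exact Or.inl (Or.inr ⟨t, rfl⟩)
  · funext x y
    apply propext
    constructor
    · rintro ⟨_, ⟨t, ht, rfl⟩, z, hz, hz'⟩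
      refine ⟨z, hz, ?_⟩
      rw [Set.mem_singleton_iff] at hz'
      rw [hz']
      exact ht
    · rintro ⟨z, hz, hz'⟩
      exact ⟨_, ⟨ω z, hz', rfl⟩, z, hz, rfl⟩

theorem vP_mem (h v : R → R) (ω : R → τ) (I : Set τ) : vP ω I ∈ spn (colGen h v ω) := by
  refine ⟨(fun t : τ => vP ω {t}) '' I, ?_, ?_⟩
  · rintro _ ⟨t, _, rfl⟩
    exact Or.inl (Or.inr ⟨t, rfl⟩)
  · funext x y
    apply propext
    constructor
    · rintro ⟨_, ⟨t, ht, rfl⟩, z, hz, hz'⟩
      refine ⟨z, hz, ?_⟩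
      rw [Set.mem_singleton_iff] at hz'
      rw [hz']
      exact ht
    · rintro ⟨z, hz, hz'⟩
      exact ⟨_, ⟨ω z, hz', rfl⟩, z, hz, rfl⟩

/-- row element of a set of labels -/
def eT (h v : R → R) (ω : R → τ) (I : Set τ) : Alg h v ω :=
  ⟨(vT ω I, fun _ _ => False, fun _ _ => False, False),
    vT_mem h v ω I, bot_spn _, bot_spn _, trivial⟩

/-- row element of the first auxiliary point -/
def eZ (h v : R → R) (ω : R → τ) : Alg h v ω :=
  ⟨(vZ, fun _ _ => False, fun _ _ => False, False),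
    subset_spn (Or.inl (Or.inl rfl)), bot_spn _, bot_spn _, trivial⟩

/-- column element of a set of labels -/
def eP (h v : R → R) (ω : R → τ) (I : Set τ) : Alg h v ω :=
  ⟨(fun _ _ => False, fun _ _ => False, vP ω I, False),
    bot_spn _, bot_spn _, vP_mem h v ω I, trivial⟩

/-- column element of the second auxiliary point -/
def eW (h v : R → R) (ω : R → τ) : Alg h v ω :=
  ⟨(fun _ _ => False, fun _ _ => False, vW, False),
    bot_spn _, bot_spn _, subset_spn (Or.inl (Or.inl rfl)), trivial⟩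

/-- the first step element -/
def eH (h v : R → R) (ω : R → τ) : Alg h v ω :=
  ⟨(fun _ _ => False, G1 h, fun _ _ => False, False),
    bot_spn _, subset_spn (by simp [midGen]), bot_spn _, trivial⟩

/-- the second step element -/
def eV (h v : R → R) (ω : R → τ) : Alg h v ω :=
  ⟨(fun _ _ => False, G1 v, fun _ _ => False, False),
    bot_spn _, subset_spn (by simp [midGen]), bot_spn _, trivial⟩

/-- the top corner element -/
def eC (h v : R → R) (ω : R → τ) : Alg h v ω :=
  ⟨(fun _ _ => False, fun _ _ => False, fun _ _ => False, True),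
    bot_spn _, bot_spn _, bot_spn _, trivial⟩

theorem alg_ext {h v : R → R} {ω : R → τ} {a b : Alg h v ω}
    (h1 : ∀ x, a.1.1 () x ↔ b.1.1 () x) (h2 : ∀ x y, a.1.2.1 x y ↔ b.1.2.1 x y)
    (h3 : ∀ x, a.1.2.2.1 x () ↔ b.1.2.2.1 x ()) (h4 : a.1.2.2.2 ↔ b.1.2.2.2) : a = b := by
  apply Subtype.ext
  refine Prod.ext ?_ (Prod.ext ?_ (Prod.ext ?_ ?_))
  · funext i x
    exact propext (h1 x)
  · funext x y
    exact propext (h2 x y)
  · funext x i
    exact propext (h3 x)
  · exact propext h4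

section

variable {h v : R → R} (hv : h ∘ v = v ∘ h) {ω : R → τ}

theorem zero_add' (a : Alg h v ω) : algAdd (algZero h v ω) a = a := by
  apply alg_ext <;> simp [algAdd, algZero, blkAdd]

theorem add_zero' (a : Alg h v ω) : algAdd a (algZero h v ω) = a := by
  apply alg_ext <;> simp [algAdd, algZero, blkAdd]

theorem mul_zero' (a : Alg h v ω) : algMul hv a (algZero h v ω) = algZero h v ω := by
  apply alg_ext <;> simp [algMul, algZero, blkMul, hc]

theorem zero_mul' (a : Alg h v ω) : algMul hv (algZero h v ω) a = algZero h v ω := by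
  apply alg_ext <;> simp [algMul, algZero, blkMul, hc]

theorem eT_empty : eT h v ω ∅ = algZero h v ω := by
  apply alg_ext <;> simp [eT, algZero, vT]

theorem eP_empty : eP h v ω ∅ = algZero h v ω := by
  apply alg_ext <;> simp [eP, algZero, vP]

theorem eT_insert (t : τ) (I : Set τ) :
    eT h v ω (insert t I) = algAdd (eT h v ω {t}) (eT h v ω I) := by
  apply alg_ext
  · intro x
    constructor
    · rintro ⟨y, hy, h1 | h1⟩
      · exact Or.inl ⟨y, hy, h1⟩
      · exact Or.inr ⟨y, hy, h1⟩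
    · rintro (⟨y, hy, h1⟩ | ⟨y, hy, h1⟩)
      · exact ⟨y, hy, Or.inl h1⟩
      · exact ⟨y, hy, Or.inr h1⟩
  · simp [algAdd, eT, blkAdd]
  · simp [algAdd, eT, blkAdd]
  · simp [algAdd, eT, blkAdd]

theorem eP_insert (t : τ) (I : Set τ) :
    eP h v ω (insert t I) = algAdd (eP h v ω {t}) (eP h v ω I) := by
  apply alg_ext
  · simp [algAdd, eP, blkAdd]
  · simp [algAdd, eP, blkAdd]
  · intro x
    constructor
    · rintro ⟨y, hy, h1 | h1⟩
      · exact Or.inl ⟨y, hy, h1⟩
      · exact Or.inr ⟨y, hy, h1⟩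
    · rintro (⟨y, hy, h1⟩ | ⟨y, hy, h1⟩)
      · exact ⟨y, hy, Or.inl h1⟩
      · exact ⟨y, hy, Or.inr h1⟩
  · simp [algAdd, eP, blkAdd]

theorem eT_mul_eH (t : τ) :
    algAdd (algMul hv (eT h v ω {t}) (eH h v ω))
      (algAdd (eT h v ω {t' | ∃ r, ω r = t ∧ ω (h r) = t'}) (eZ h v ω))
    = algAdd (eT h v ω {t' | ∃ r, ω r = t ∧ ω (h r) = t'}) (eZ h v ω) := by
  apply alg_ext
  · intro x
    constructor
    · rintro (h1 | h1)
      · obtain ⟨w, ⟨y, rfl, hy⟩, h2⟩ := h1
        cases x with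
        | real u =>
          change u = h y at h2
          subst h2
          exact Or.inl ⟨_, rfl, y, hy, rfl⟩
        | jp => exact Or.inr rfl
        | jn => exact h2.elim
      · exact h1
    · intro h1
      exact Or.inr h1
  · simp [algAdd, algMul, eT, eH, eZ, blkAdd, blkMul, hc]
  · simp [algAdd, algMul, eT, eH, eZ, blkAdd, blkMul, hc]
  · simp [algAdd, algMul, eT, eH, eZ, blkAdd, blkMul, hc]

theorem eT_mul_eV (t : τ) :
    algAdd (algMul hv (eT h v ω {t}) (eV h v ω))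
      (algAdd (eT h v ω {t' | ∃ r, ω r = t ∧ ω (v r) = t'}) (eZ h v ω))
    = algAdd (eT h v ω {t' | ∃ r, ω r = t ∧ ω (v r) = t'}) (eZ h v ω) := by
  apply alg_ext
  · intro x
    constructor
    · rintro (h1 | h1)
      · obtain ⟨w, ⟨y, rfl, hy⟩, h2⟩ := h1
        cases x with
        | real u =>
          change u = v y at h2
          subst h2
          exact Or.inl ⟨_, rfl, y, hy, rfl⟩
        | jp => exact Or.inr rfl
        | jn => exact h2.elim
      · exact h1
    · intro h1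
      exact Or.inr h1
  · simp [algAdd, algMul, eT, eV, eZ, blkAdd, blkMul, hc]
  · simp [algAdd, algMul, eT, eV, eZ, blkAdd, blkMul, hc]
  · simp [algAdd, algMul, eT, eV, eZ, blkAdd, blkMul, hc]

theorem eP_le_eH (I : Set τ) :
    algAdd (eP h v ω I) (algMul hv (eH h v ω) (eP h v ω Set.univ))
      = algMul hv (eH h v ω) (eP h v ω Set.univ) := by
  apply alg_ext
  · simp [algAdd, algMul, eP, eH, blkAdd, blkMul, hc]
  · simp [algAdd, algMul, eP, eH, blkAdd, blkMul, hc]
  · intro x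
    constructor
    · rintro (⟨y, rfl, hy⟩ | h1)
      · exact ⟨real (h y), rfl, _, rfl, trivial⟩
      · exact h1
    · intro h1
      exact Or.inr h1
  · simp [algAdd, algMul, eP, eH, blkAdd, blkMul, hc]

theorem eP_le_eV (I : Set τ) :
    algAdd (eP h v ω I) (algMul hv (eV h v ω) (eP h v ω Set.univ))
      = algMul hv (eV h v ω) (eP h v ω Set.univ) := by
  apply alg_ext
  · simp [algAdd, algMul, eP, eV, blkAdd, blkMul, hc]
  · simp [algAdd, algMul, eP, eV, blkAdd, blkMul, hc]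
  · intro x
    constructor
    · rintro (⟨y, rfl, hy⟩ | h1)
      · exact ⟨real (v y), rfl, _, rfl, trivial⟩
      · exact h1
    · intro h1
      exact Or.inr h1
  · simp [algAdd, algMul, eP, eV, blkAdd, blkMul, hc]

theorem eH_mul_eP (I : Set τ) :
    algAdd (algMul hv (eH h v ω) (eP h v ω I)) (algAdd (eP h v ω Set.univ) (eW h v ω))
      = algAdd (eP h v ω Set.univ) (eW h v ω) := by
  apply alg_ext
  · simp [algAdd, algMul, eP, eH, eW, blkAdd, blkMul, hc]
  · simp [algAdd, algMul, eP, eH, eW, blkAdd, blkMul, hc]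
  · intro x
    constructor
    · rintro (h1 | h1)
      · obtain ⟨w, h2, ⟨y, rfl, hy⟩⟩ := h1
        cases x with
        | real u => exact Or.inl ⟨u, rfl, trivial⟩
        | jp => exact h2.elim
        | jn => exact Or.inr rfl
      · exact h1
    · intro h1
      exact Or.inr h1
  · simp [algAdd, algMul, eP, eH, eW, blkAdd, blkMul, hc]

theorem eH_eV_comm :
    algMul hv (eH h v ω) (eV h v ω) = algMul hv (eV h v ω) (eH h v ω) := by
  apply Subtype.ext
  refine Prod.ext ?_ (Prod.ext ?_ (Prod.ext ?_ ?_))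
  · funext i x
    simp [algMul, blkMul, eH, eV, hc]
  · change hc (G1 h) (G1 v) = hc (G1 v) (G1 h)
    rw [G1_G1, G1_G1, hv]
  · funext x i
    simp [algMul, blkMul, eH, eV, hc]
  · simp [algMul, blkMul, eH, eV, hc]

theorem eT_eP_disj {t s : τ} (hts : t ≠ s) :
    algMul hv (eT h v ω {t}) (eP h v ω {s}) = algZero h v ω := by
  apply alg_ext
  · simp [algMul, eT, eP, algZero, blkMul, hc]
  · simp [algMul, eT, eP, algZero, blkMul, hc]
  · simp [algMul, eT, eP, algZero, blkMul, hc]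
  · constructor
    · rintro ⟨x, ⟨y, rfl, hy⟩, ⟨z, hz, hz'⟩⟩
      simp only [Mid.real.injEq] at hz
      subst hz
      exact hts (hy.symm.trans hz')
    · intro h1
      exact h1.elim

theorem eT_eP_corner (r : R) :
    algMul hv (eT h v ω {ω r}) (eP h v ω {ω r}) = eC h v ω := by
  apply alg_ext
  · simp [algMul, eT, eP, eC, blkMul, hc]
  · simp [algMul, eT, eP, eC, blkMul, hc]
  · simp [algMul, eT, eP, eC, blkMul, hc]
  · exact ⟨fun _ => trivial, fun _ => ⟨real r, ⟨r, rfl, rfl⟩, ⟨r, rfl, rfl⟩⟩⟩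

theorem eZ_eP (I : Set τ) : algMul hv (eZ h v ω) (eP h v ω I) = algZero h v ω := by
  apply alg_ext <;> simp [algMul, eZ, eP, algZero, blkMul, hc, vZ, vP]

theorem eT_eW (I : Set τ) : algMul hv (eT h v ω I) (eW h v ω) = algZero h v ω := by
  apply alg_ext <;> simp [algMul, eT, eW, algZero, blkMul, hc, vW, vT]

theorem eZ_eW : algMul hv (eZ h v ω) (eW h v ω) = algZero h v ω := by
  apply alg_ext <;> simp [algMul, eZ, eW, algZero, blkMul, hc, vZ, vW]

theorem eC_ne_zero : eC h v ω ≠ algZero h v ω := by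
  intro h1
  have h2 : (eC h v ω).1.2.2.2 = (algZero h v ω).1.2.2.2 := by rw [h1]
  simp [eC, algZero] at h2

end

/-- The forced structure. -/
theorem forced [Finite τ] [Nonempty R] {h v : R → R} (hv : h ∘ v = v ∘ h) {ω : R → τ}
    {Y : Type u} (θ : Alg h v ω → Y → Y → Prop) (hinj : Function.Injective θ)
    (hadd : ∀ a b x y, θ (algAdd a b) x y ↔ θ a x y ∨ θ b x y)
    (hmul : ∀ a b x z, θ (algMul hv a b) x z ↔ ∃ y, θ a x y ∧ θ b y z) :
    ∃ (D : Set Y) (tile : D → τ) (H V : D → D → Prop), Nonempty D ∧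
      (∀ y, ∃ y', H y y') ∧ (∀ y, ∃ y', V y y') ∧
      (∀ x y u, H x y → V y u → ∃ w, V x w ∧ H w u) ∧
      (∀ x y, H x y → ∃ r, ω r = tile x ∧ ω (h r) = tile y) ∧
      (∀ x y, V x y → ∃ r, ω r = tile x ∧ ω (v r) = tile y) := by
  classical
  -- the pair
  obtain ⟨p, q, hpq, hpq0⟩ : ∃ p q, θ (eC h v ω) p q ∧ ¬ θ (algZero h v ω) p q := by
    by_contra hcon
    push Not at hcon
    apply eC_ne_zero (h := h) (v := v) (ω := ω)
    apply hinj
    funext x y
    apply propext
    refine ⟨hcon x y, fun h0 => ?_⟩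
    rw [← add_zero' (eC h v ω), hadd]
    exact Or.inr h0
  -- monotonicity
  have mono : ∀ {a b : Alg h v ω} {x y : Y}, algAdd a b = b → θ a x y → θ b x y := by
    intro a b x y hab hx
    rw [← hab, hadd]
    exact Or.inl hx
  have z1 : ∀ {b : Alg h v ω} {y : Y}, θ (algZero h v ω) p y → θ b y q → False := by
    intro b y h1 h2
    apply hpq0
    rw [← zero_mul' hv b, hmul]
    exact ⟨y, h1, h2⟩
  have z2 : ∀ {b : Alg h v ω} {y : Y}, θ b p y → θ (algZero h v ω) y q → False := by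
    intro b y h1 h2
    apply hpq0
    rw [← mul_zero' hv b, hmul]
    exact ⟨y, h1, h2⟩
  have z3 : ∀ {a b : Alg h v ω} {y : Y}, θ a p y → θ b y q → algMul hv a b = algZero h v ω →
      False := by
    intro a b y h1 h2 h3
    apply hpq0
    rw [← h3, hmul]
    exact ⟨y, h1, h2⟩
  -- splitting
  have splitT : ∀ I : Set τ, ∀ x y, θ (eT h v ω I) x y →
      θ (algZero h v ω) x y ∨ ∃ t ∈ I, θ (eT h v ω {t}) x y := by
    intro I
    induction I, Set.toFinite I using Set.Finite.induction_on with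
    | empty =>
      intro x y hx
      rw [eT_empty] at hx
      exact Or.inl hx
    | insert ha hI ih =>
      intro x y hx
      rw [eT_insert, hadd] at hx
      rcases hx with hx | hx
      · exact Or.inr ⟨_, Set.mem_insert _ _, hx⟩
      · rcases ih x y hx with h1 | ⟨t, ht, h1⟩
        · exact Or.inl h1
        · exact Or.inr ⟨t, Set.mem_insert_of_mem _ ht, h1⟩
  have splitP : ∀ I : Set τ, ∀ x y, θ (eP h v ω I) x y →
      θ (algZero h v ω) x y ∨ ∃ t ∈ I, θ (eP h v ω {t}) x y := by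
    intro I
    induction I, Set.toFinite I using Set.Finite.induction_on with
    | empty =>
      intro x y hx
      rw [eP_empty] at hx
      exact Or.inl hx
    | insert ha hI ih =>
      intro x y hx
      rw [eP_insert, hadd] at hx
      rcases hx with hx | hx
      · exact Or.inr ⟨_, Set.mem_insert _ _, hx⟩
      · rcases ih x y hx with h1 | ⟨t, ht, h1⟩
        · exact Or.inl h1
        · exact Or.inr ⟨t, Set.mem_insert_of_mem _ ht, h1⟩
  -- real points
  let real' : τ → Y → Prop := fun t y => θ (eT h v ω {t}) p y ∧ θ (eP h v ω {t}) y q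
  have uniq : ∀ {t s : τ} {y : Y}, θ (eT h v ω {t}) p y → θ (eP h v ω {s}) y q → t = s := by
    intro t s y h1 h2
    by_contra hne
    exact z3 h1 h2 (eT_eP_disj hv hne)
  -- horizontal step into a point with a `P` label
  have stepH : ∀ {t s : τ} {y y' : Y}, θ (eT h v ω {t}) p y → θ (eH h v ω) y y' →
      θ (eP h v ω {s}) y' q → (∃ r, ω r = t ∧ ω (h r) = s) ∧ real' s y' := by
    intro t s y y' h1 h2 h3
    have h4 : θ (algMul hv (eT h v ω {t}) (eH h v ω)) p y' := (hmul _ _ _ _).2 ⟨y, h1, h2⟩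
    have h5 := mono (eT_mul_eH hv t) h4
    rw [hadd] at h5
    rcases h5 with h5 | h5
    · rcases splitT _ _ _ h5 with h6 | ⟨t', ht', h6⟩
      · exact (z1 h6 h3).elim
      · have h7 := uniq h6 h3
        subst h7
        exact ⟨ht', h6, h3⟩
    · exact (z3 h5 h3 (eZ_eP hv _)).elim
  have stepV : ∀ {t s : τ} {y y' : Y}, θ (eT h v ω {t}) p y → θ (eV h v ω) y y' →
      θ (eP h v ω {s}) y' q → (∃ r, ω r = t ∧ ω (v r) = s) ∧ real' s y' := by
    intro t s y y' h1 h2 h3
    have h4 : θ (algMul hv (eT h v ω {t}) (eV h v ω)) p y' := (hmul _ _ _ _).2 ⟨y, h1, h2⟩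
    have h5 := mono (eT_mul_eV hv t) h4
    rw [hadd] at h5
    rcases h5 with h5 | h5
    · rcases splitT _ _ _ h5 with h6 | ⟨t', ht', h6⟩
      · exact (z1 h6 h3).elim
      · have h7 := uniq h6 h3
        subst h7
        exact ⟨ht', h6, h3⟩
    · exact (z3 h5 h3 (eZ_eP hv _)).elim
  -- the domain
  let D : Set Y := {y | ∃ t, real' t y}
  let tile : D → τ := fun y => y.2.choose
  have htile : ∀ y : D, real' (tile y) y.1 := fun y => y.2.choose_spec
  refine ⟨D, tile, fun x y => θ (eH h v ω) x.1 y.1, fun x y => θ (eV h v ω) x.1 y.1,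
    ?_, ?_, ?_, ?_, ?_, ?_⟩
  · obtain ⟨r⟩ := ‹Nonempty R›
    rw [← eT_eP_corner hv r, hmul] at hpq
    obtain ⟨y, h1, h2⟩ := hpq
    exact ⟨⟨y, _, h1, h2⟩⟩
  · intro y
    obtain ⟨h1, h2⟩ := htile y
    have h3 := mono (eP_le_eH hv _) h2
    rw [hmul] at h3
    obtain ⟨y', h4, h5⟩ := h3
    rcases splitP _ _ _ h5 with h6 | ⟨s, -, h6⟩
    · have h7 : θ (algMul hv (eT h v ω {tile y}) (eH h v ω)) p y' :=
        (hmul _ _ _ _).2 ⟨y.1, h1, h4⟩
      exact (z2 h7 h6).elim
    · obtain ⟨-, h8⟩ := stepH h1 h4 h6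
      exact ⟨⟨y', s, h8⟩, h4⟩
  · intro y
    obtain ⟨h1, h2⟩ := htile y
    have h3 := mono (eP_le_eV hv _) h2
    rw [hmul] at h3
    obtain ⟨y', h4, h5⟩ := h3
    rcases splitP _ _ _ h5 with h6 | ⟨s, -, h6⟩
    · have h7 : θ (algMul hv (eT h v ω {tile y}) (eV h v ω)) p y' :=
        (hmul _ _ _ _).2 ⟨y.1, h1, h4⟩
      exact (z2 h7 h6).elim
    · obtain ⟨-, h8⟩ := stepV h1 h4 h6
      exact ⟨⟨y', s, h8⟩, h4⟩
  · intro x y w hxy hyw
    obtain ⟨hx1, hx2⟩ := htile x
    obtain ⟨hw1, hw2⟩ := htile w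
    have h1 : θ (algMul hv (eH h v ω) (eV h v ω)) x.1 w.1 := (hmul _ _ _ _).2 ⟨y.1, hxy, hyw⟩
    rw [eH_eV_comm, hmul] at h1
    obtain ⟨k, hk1, hk2⟩ := h1
    have h2 : θ (algMul hv (eT h v ω {tile x}) (eV h v ω)) p k :=
      (hmul _ _ _ _).2 ⟨x.1, hx1, hk1⟩
    have h3 := mono (eT_mul_eV hv _) h2
    rw [hadd] at h3
    have h4 : θ (algMul hv (eH h v ω) (eP h v ω {tile w})) k q :=
      (hmul _ _ _ _).2 ⟨w.1, hk2, hw2⟩
    have h5 := mono (eH_mul_eP hv _) h4
    rw [hadd] at h5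
    rcases h3 with h3 | h3
    · rcases h5 with h5 | h5
      · rcases splitP _ _ _ h5 with h6 | ⟨s, -, h6⟩
        · exact (z2 h3 h6).elim
        · obtain ⟨-, h7⟩ := stepV hx1 hk1 h6
          exact ⟨⟨k, s, h7⟩, hk1, hk2⟩
      · exact (z3 h3 h5 (eT_eW hv _)).elim
    · rcases h5 with h5 | h5
      · exact (z3 h3 h5 (eZ_eP hv _)).elim
      · exact (z3 h3 h5 (eZ_eW hv)).elim
  · intro x y hxy
    exact (stepH (htile x).1 hxy (htile y).2).1
  · intro x y hxy
    exact (stepV (htile x).1 hxy (htile y).2).1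

end Pool.Agent.Helper77.FRP
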