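import Mathlib

/-!
Helix argument: a finite set with two total relations `H`, `V` satisfying the confluence
rule `H;V ⊆ V;H` carries no labelling by Kari-type multiplication tiles.
-/

namespace Pool.Agent.Helper77.FRP

universe u

variable {Y : Type u}

theorem path_of_transGen {r : Y → Y → Prop} {a b : Y} (h : Relation.TransGen r a b) :
    ∃ n, 0 < n ∧ ∃ f : ℕ → Y, f 0 = a ∧ f n = b ∧ ∀ i < n, r (f i) (f (i + 1)) := by
  induction h with
  | single hab =>
    rename_i c
    refine ⟨1, Nat.one_pos, fun i => if i = 0 then a else c, by simp, by simp, ?_⟩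
    intro i hi
    obtain rfl : i = 0 := by omega
    simpa using hab
  | tail hab hbc ih =>
    rename_i b' c'
    obtain ⟨n, hn, f, f0, fn, hf⟩ := ih
    refine ⟨n + 1, Nat.succ_pos _, fun i => if i ≤ n then f i else c', ?_, ?_, ?_⟩
    · simp [f0]
    · simp
    · intro i hi
      rcases Nat.lt_or_ge i n with h1 | h1
      · have h2 : i ≤ n := h1.le
        have h3 : i + 1 ≤ n := h1
        simp only [h2, h3, if_true]
        exact hf i h1
      · obtain rfl : i = n := by omega
        have h3 : ¬ (i + 1 ≤ i) := by omega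
        simp only [le_refl, if_true, h3, if_false, fn]
        exact hbc

theorem conf_one {H V : Y → Y → Prop}
    (conf : ∀ x y u, H x y → V y u → ∃ w, V x w ∧ H w u)
    {x y u : Y} (h : Relation.TransGen H x y) (hv : V y u) :
    ∃ w, V x w ∧ Relation.TransGen H w u := by
  induction h using Relation.TransGen.head_induction_on with
  | single hab =>
    obtain ⟨w, h1, h2⟩ := conf _ _ _ hab hv
    exact ⟨w, h1, Relation.TransGen.single h2⟩
  | head hab hbc ih =>
    obtain ⟨w, h1, h2⟩ := ih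
    obtain ⟨w', h3, h4⟩ := conf _ _ _ hab h1
    exact ⟨w', h3, Relation.TransGen.head h4 h2⟩

theorem conf_trans {H V : Y → Y → Prop}
    (conf : ∀ x y u, H x y → V y u → ∃ w, V x w ∧ H w u)
    {x y u : Y} (h : Relation.TransGen H x y) (hv : Relation.TransGen V y u) :
    ∃ w, Relation.TransGen V x w ∧ Relation.TransGen H w u := by
  induction hv with
  | single hab =>
    obtain ⟨w, h1, h2⟩ := conf_one conf h hab
    exact ⟨w, Relation.TransGen.single h1, h2⟩
  | tail hab hbc ih =>
    obtain ⟨w, h1, h2⟩ := ih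
    obtain ⟨w', h3, h4⟩ := conf_one conf h2 hbc
    exact ⟨w', Relation.TransGen.tail h1 h3, h4⟩

/-- a transitive total relation on a finite nonempty type has a reflexive point -/
theorem exists_refl_point [Finite Y] [Nonempty Y] (K : Y → Y → Prop)
    (tr : ∀ x y z, K x y → K y z → K x z) (tot : ∀ x, ∃ y, K x y) : ∃ y, K y y := by
  by_contra hcon
  push Not at hcon
  have : IsTrans Y (fun x y => K y x) := ⟨fun x y z h1 h2 => tr _ _ _ h2 h1⟩
  have : Std.Irrefl (fun x y => K y x) := ⟨fun x h => hcon x h⟩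
  have wf : WellFounded (fun x y : Y => K y x) := Finite.wellFounded_of_trans_of_irrefl _
  obtain ⟨m, -, hm⟩ := wf.has_min Set.univ Set.univ_nonempty
  obtain ⟨y, hy⟩ := tot m
  exact hm y (Set.mem_univ _) hy

/-- loop made of vertical steps followed by horizontal steps -/
theorem exists_loop [Finite Y] [Nonempty Y] {H V : Y → Y → Prop}
    (Htot : ∀ y, ∃ y', H y y') (Vtot : ∀ y, ∃ y', V y y')
    (conf : ∀ x y u, H x y → V y u → ∃ w, V x w ∧ H w u) :
    ∃ y u, Relation.TransGen V y u ∧ Relation.TransGen H u y := by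
  obtain ⟨y, u, h1, h2⟩ := exists_refl_point
    (fun x y => ∃ u, Relation.TransGen V x u ∧ Relation.TransGen H u y) (by
      rintro x y z ⟨u, hxu, huy⟩ ⟨u', hyu, huz⟩
      obtain ⟨w, h1, h2⟩ := conf_trans conf huy hyu
      exact ⟨w, hxu.trans h1, h2.trans huz⟩) (by
      intro x
      obtain ⟨u, hu⟩ := Vtot x
      obtain ⟨y, hy⟩ := Htot u
      exact ⟨y, u, Relation.TransGen.single hu, Relation.TransGen.single hy⟩)
  exact ⟨y, u, h1, h2⟩

section array

variable (F : Y → Y → Y → Y) (m n : ℕ)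

/-- the next column of the helical array -/
def nextCol (bot : Y) (col : ℕ → Y) : ℕ → Y
  | 0 => bot
  | j + 1 => F (nextCol bot col j) (col j) (col (j + 1))

/-- one step of the construction of the helical array; a state is a bottom row segment and a
column -/
def helStep (s : (ℕ → Y) × (ℕ → Y)) : (ℕ → Y) × (ℕ → Y) :=
  (fun k => if k < m then s.1 (k + 1) else nextCol F (s.1 1) s.2 n, nextCol F (s.1 1) s.2)

/-- the states of the construction -/
def helState (s : (ℕ → Y) × (ℕ → Y)) : ℕ → (ℕ → Y) × (ℕ → Y)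
  | 0 => s
  | i + 1 => helStep F m n (helState s i)

/-- invariant of the construction -/
def HelInv (H V : Y → Y → Prop) (s : (ℕ → Y) × (ℕ → Y)) : Prop :=
  s.1 0 = s.2 0 ∧ s.1 m = s.2 n ∧ (∀ k < m, H (s.1 (k + 1)) (s.1 k)) ∧
    ∀ j < n, V (s.2 j) (s.2 (j + 1))

variable {F m n}

theorem nextCol_spec {H V : Y → Y → Prop}
    (hF : ∀ x y u, H x y → V y u → V x (F x y u) ∧ H (F x y u) u)
    (hm : 0 < m) {s : (ℕ → Y) × (ℕ → Y)} (hs : HelInv m n H V s) :
    (∀ j ≤ n, H (nextCol F (s.1 1) s.2 j) (s.2 j)) ∧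
    ∀ j < n, V (nextCol F (s.1 1) s.2 j) (nextCol F (s.1 1) s.2 (j + 1)) := by
  obtain ⟨h0, h1, h2, h3⟩ := hs
  have key : ∀ j ≤ n, H (nextCol F (s.1 1) s.2 j) (s.2 j) := by
    intro j
    induction j with
    | zero =>
      intro _
      have := h2 0 hm
      rw [h0] at this
      exact this
    | succ j ih =>
      intro hj
      exact (hF _ _ _ (ih (by omega)) (h3 j (by omega))).2
  exact ⟨key, fun j hj => (hF _ _ _ (key j hj.le) (h3 j hj)).1⟩

theorem helStep_inv {H V : Y → Y → Prop}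
    (hF : ∀ x y u, H x y → V y u → V x (F x y u) ∧ H (F x y u) u)
    (hm : 0 < m) {s : (ℕ → Y) × (ℕ → Y)} (hs : HelInv m n H V s) :
    HelInv m n H V (helStep F m n s) := by
  obtain ⟨k1, k2⟩ := nextCol_spec hF hm hs
  obtain ⟨h0, h1, h2, h3⟩ := hs
  refine ⟨?_, ?_, ?_, ?_⟩
  · simp only [helStep, hm, if_true]
    rfl
  · simp [helStep]
  · intro k hk
    rcases Nat.lt_or_ge (k + 1) m with h | h
    · simp only [helStep, h, hk, if_true]
      exact h2 (k + 1) h
    · have hkm : k + 1 = m := by omega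
      have h' : ¬ (k + 1 < m) := by omega
      simp only [helStep, h', hk, if_true, if_false]
      rw [hkm, h1]
      exact k1 n le_rfl
  · intro j hj
    exact k2 j hj

theorem helState_inv {H V : Y → Y → Prop}
    (hF : ∀ x y u, H x y → V y u → V x (F x y u) ∧ H (F x y u) u)
    (hm : 0 < m) {s : (ℕ → Y) × (ℕ → Y)} (hs : HelInv m n H V s) (i : ℕ) :
    HelInv m n H V (helState F m n s i) := by
  induction i with
  | zero => exact hs
  | succ i ih => exact helStep_inv hF hm ih

theorem helState_shift (s : (ℕ → Y) × (ℕ → Y)) (k : ℕ) (hk : k ≤ m) (i : ℕ) :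
    (helState F m n s (i + k)).1 0 = (helState F m n s i).1 k := by
  induction k generalizing i with
  | zero => rfl
  | succ k ih =>
    have h1 : i + (k + 1) = (i + 1) + k := by ring
    rw [h1, ih (by omega) (i + 1)]
    have h2 : k < m := by omega
    simp [helState, helStep, h2]

end array

/-- existence of a helical array -/
theorem exists_helix [Finite Y] [Nonempty Y] {H V : Y → Y → Prop}
    (Htot : ∀ y, ∃ y', H y y') (Vtot : ∀ y, ∃ y', V y y')
    (conf : ∀ x y u, H x y → V y u → ∃ w, V x w ∧ H w u) :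
    ∃ (m n : ℕ) (g : ℕ → ℕ → Y), 0 < m ∧ 0 < n ∧
      (∀ i, ∀ j ≤ n, H (g (i + 1) j) (g i j)) ∧
      (∀ i, ∀ j < n, V (g i j) (g i (j + 1))) ∧
      ∀ i, g (i + m) 0 = g i n := by
  classical
  obtain ⟨y, u, hV, hH⟩ := exists_loop Htot Vtot conf
  obtain ⟨n, hn, γ, γ0, γn, hγ⟩ := path_of_transGen hV
  have hH' : Relation.TransGen (fun a b => H b a) y u :=
    (Relation.transGen_swap (r := H)).2 hH
  obtain ⟨m, hm, β, β0, βm, hβ⟩ := path_of_transGen hH'
  let F : Y → Y → Y → Y := fun x y u =>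
    if h : ∃ w, V x w ∧ H w u then h.choose else x
  have hF : ∀ x y u, H x y → V y u → V x (F x y u) ∧ H (F x y u) u := by
    intro x y u h1 h2
    have h := conf x y u h1 h2
    simp only [F, h, dif_pos]
    exact h.choose_spec
  have hinit : HelInv m n H V (β, γ) := by
    refine ⟨?_, ?_, ?_, ?_⟩
    · simp [β0, γ0]
    · simp [βm, γn]
    · intro k hk
      exact hβ k hk
    · intro j hj
      exact hγ j hj
  refine ⟨m, n, fun i j => (helState F m n (β, γ) i).2 j, hm, hn, ?_, ?_, ?_⟩
  · intro i j hj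
    exact (nextCol_spec hF hm (helState_inv hF hm hinit i)).1 j hj
  · intro i j hj
    exact (helState_inv hF hm hinit i).2.2.2 j hj
  · intro i
    have h1 := (helState_inv hF hm hinit (i + m)).1
    have h2 := (helState_inv hF hm hinit i).2.1
    have h3 := helState_shift (F := F) (n := n) (β, γ) m le_rfl i
    simp only
    rw [← h1, h3, h2]

/-- No finite nonempty set with total relations `H`, `V`, confluence `H;V ⊆ V;H`, carries a
labelling by multiplication tiles. -/
theorem helix_contra [Finite Y] [Nonempty Y] {H V : Y → Y → Prop}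
    (Htot : ∀ y, ∃ y', H y y') (Vtot : ∀ y, ∃ y', V y y')
    (conf : ∀ x y u, H x y → V y u → ∃ w, V x w ∧ H w u)
    (ty : Y → Bool) (a b c d : Y → ℤ)
    (hty : ∀ x y, H x y → ty x = ty y)
    (hcd : ∀ x y, H x y → d x = c y)
    (hba : ∀ x y, V x y → b x = a y)
    (eqA : ∀ y, ty y = true → 2 * a y + c y = b y + d y)
    (eqB : ∀ y, ty y = false → a y + c y = 3 * b y + d y)
    (a1 : ∀ y, 1 ≤ a y) (a6 : ∀ y, a y ≤ 6) (d3 : ∀ y, |d y| ≤ 3) : False := by
  obtain ⟨m, n, g, hm, hn, gH, gV, gshift⟩ := exists_helix Htot Vtot conf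
  have hrow : ∀ j ≤ n, ∀ i, ty (g i j) = ty (g 0 j) := by
    intro j hj i
    induction i with
    | zero => rfl
    | succ i ih => rw [hty _ _ (gH i j hj), ih]
  let S : ℕ → ℕ → ℤ := fun L j => ∑ i ∈ Finset.range L, a (g i j)
  have hS : ∀ L j, S L j = ∑ i ∈ Finset.range L, a (g i j) := fun _ _ => rfl
  have hc : ∀ L, ∀ j ≤ n, ∑ i ∈ Finset.range L, c (g i j)
      = ∑ i ∈ Finset.range L, d (g i j) + (d (g L j) - d (g 0 j)) := by
    intro L j hj
    have h1 : ∑ i ∈ Finset.range L, c (g i j) = ∑ i ∈ Finset.range L, d (g (i + 1) j) :=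
      Finset.sum_congr rfl fun i _ => (hcd _ _ (gH i j hj)).symm
    have h2 := Finset.sum_range_succ (fun i => d (g i j)) L
    have h3 := Finset.sum_range_succ' (fun i => d (g i j)) L
    rw [h1]
    linarith
  have hb : ∀ L, ∀ j < n, ∑ i ∈ Finset.range L, b (g i j) = S L (j + 1) := by
    intro L j hj
    exact Finset.sum_congr rfl fun i _ => hba _ _ (gV i j hj)
  have hd : ∀ L j, |d (g L j) - d (g 0 j)| ≤ 6 := by
    intro L j
    have h1 := abs_le.1 (d3 (g L j))
    have h2 := abs_le.1 (d3 (g 0 j))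
    rw [abs_le]
    constructor <;> linarith [h1.1, h1.2, h2.1, h2.2]
  have stepA : ∀ L, ∀ j < n, ty (g 0 j) = true →
      S L (j + 1) = 2 * S L j + (d (g L j) - d (g 0 j)) := by
    intro L j hj ht
    have h1 : ∑ i ∈ Finset.range L, (2 * a (g i j) + c (g i j))
        = ∑ i ∈ Finset.range L, (b (g i j) + d (g i j)) :=
      Finset.sum_congr rfl fun i _ => eqA _ (by rw [hrow j hj.le i, ht])
    rw [Finset.sum_add_distrib, Finset.sum_add_distrib, ← Finset.mul_sum, hc L j hj.le,
      hb L j hj, ← hS] at h1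
    linarith
  have stepB : ∀ L, ∀ j < n, ty (g 0 j) = false →
      3 * S L (j + 1) = S L j + (d (g L j) - d (g 0 j)) := by
    intro L j hj ht
    have h1 : ∑ i ∈ Finset.range L, (a (g i j) + c (g i j))
        = ∑ i ∈ Finset.range L, (3 * b (g i j) + d (g i j)) :=
      Finset.sum_congr rfl fun i _ => eqB _ (by rw [hrow j hj.le i, ht])
    rw [Finset.sum_add_distrib, Finset.sum_add_distrib, ← Finset.mul_sum, hc L j hj.le,
      hb L j hj, ← hS] at h1
    linarith
  have claim : ∀ j ≤ n, ∃ p r : ℕ, p + r = j ∧ ∃ K : ℤ, ∀ L,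
      |3 ^ r * S L j - 2 ^ p * S L 0| ≤ K := by
    intro j
    induction j with
    | zero =>
      intro _
      exact ⟨0, 0, rfl, 0, fun L => by simp⟩
    | succ j ih =>
      intro hj
      obtain ⟨p, r, hpr, K, hK⟩ := ih (by omega)
      cases ht : ty (g 0 j) with
      | true =>
        refine ⟨p + 1, r, by omega, 2 * K + 3 ^ r * 6, fun L => ?_⟩
        rw [stepA L j (by omega) ht]
        have e : (3 : ℤ) ^ r * (2 * S L j + (d (g L j) - d (g 0 j))) - 2 ^ (p + 1) * S L 0
            = 2 * (3 ^ r * S L j - 2 ^ p * S L 0) + 3 ^ r * (d (g L j) - d (g 0 j)) := by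
          rw [pow_succ]; ring
        rw [e]
        refine (abs_add_le _ _).trans ?_
        rw [abs_mul, abs_mul, abs_of_pos (show (0 : ℤ) < 2 by norm_num),
          abs_of_pos (show (0 : ℤ) < 3 ^ r by positivity)]
        have h1 := hK L
        have h2 := hd L j
        have h3 : (0 : ℤ) < 3 ^ r := by positivity
        have h4 := mul_le_mul_of_nonneg_left h2 h3.le
        linarith
      | false =>
        refine ⟨p, r + 1, by omega, K + 3 ^ r * 6, fun L => ?_⟩
        have e : (3 : ℤ) ^ (r + 1) * S L (j + 1) - 2 ^ p * S L 0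
            = (3 ^ r * S L j - 2 ^ p * S L 0) + 3 ^ r * (d (g L j) - d (g 0 j)) := by
          have := stepB L j (by omega) ht
          rw [pow_succ, mul_assoc, this]; ring
        rw [e]
        refine (abs_add_le _ _).trans ?_
        rw [abs_mul, abs_of_pos (show (0 : ℤ) < 3 ^ r by positivity)]
        have h1 := hK L
        have h2 := hd L j
        have h3 : (0 : ℤ) < 3 ^ r := by positivity
        have h4 := mul_le_mul_of_nonneg_left h2 h3.le
        linarith
  obtain ⟨p, r, hpr, K, hK⟩ := claim n le_rfl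
  have hne : (3 : ℤ) ^ r ≠ 2 ^ p := by
    intro h
    rcases Nat.eq_zero_or_pos p with hp | hp
    · subst hp
      have hr : r ≠ 0 := by omega
      have h3 : (1 : ℤ) < 3 ^ r := one_lt_pow₀ (by norm_num) hr
      rw [h] at h3
      norm_num at h3
    · have h1 : Odd ((3 : ℤ) ^ r) := Odd.pow (by decide)
      have h2 : Even ((2 : ℤ) ^ p) := (Int.even_pow.2 ⟨even_two, by omega⟩)
      rw [h] at h1
      exact (Int.not_even_iff_odd.2 h1) h2
  have hSn : ∀ L, S L n = S L 0 + (∑ i ∈ Finset.range m, a (g (L + i) 0)) - S m 0 := by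
    intro L
    have h1 : S L n = ∑ i ∈ Finset.range L, a (g (m + i) 0) :=
      Finset.sum_congr rfl fun i _ => by rw [← gshift i, add_comm]
    have h2 : S (m + L) 0 = S m 0 + ∑ i ∈ Finset.range L, a (g (m + i) 0) :=
      Finset.sum_range_add _ _ _
    have h3 : S (L + m) 0 = S L 0 + ∑ i ∈ Finset.range m, a (g (L + i) 0) :=
      Finset.sum_range_add _ _ _
    rw [add_comm m L] at h2
    linarith
  have hbd : ∀ L, |S L n - S L 0| ≤ 6 * m := by
    intro L
    have h1 : (∑ i ∈ Finset.range m, a (g (L + i) 0)) ≤ m * 6 := by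
      calc (∑ i ∈ Finset.range m, a (g (L + i) 0)) ≤ ∑ i ∈ Finset.range m, (6 : ℤ) :=
            Finset.sum_le_sum fun i _ => a6 _
        _ = m * 6 := by simp
    have h2 : 0 ≤ ∑ i ∈ Finset.range m, a (g (L + i) 0) :=
      Finset.sum_nonneg fun i _ => le_trans zero_le_one (a1 _)
    have h3 : S m 0 ≤ m * 6 := by
      calc S m 0 ≤ ∑ i ∈ Finset.range m, (6 : ℤ) := Finset.sum_le_sum fun i _ => a6 _
        _ = m * 6 := by simp
    have h4 : 0 ≤ S m 0 := Finset.sum_nonneg fun i _ => le_trans zero_le_one (a1 _)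
    rw [hSn L, abs_le]
    constructor <;> linarith
  have hlow : ∀ L : ℕ, (L : ℤ) ≤ S L 0 := by
    intro L
    calc (L : ℤ) = ∑ i ∈ Finset.range L, (1 : ℤ) := by simp
      _ ≤ S L 0 := Finset.sum_le_sum fun i _ => a1 _
  have hup : ∀ L : ℕ, S L 0 ≤ K + 3 ^ r * (6 * m) := by
    intro L
    have h1 := hK L
    have h2 := hbd L
    have h0 : (0 : ℤ) ≤ S L 0 := le_trans (by positivity) (hlow L)
    have e : ((3 : ℤ) ^ r - 2 ^ p) * S L 0
        = (3 ^ r * S L n - 2 ^ p * S L 0) + 3 ^ r * (-(S L n - S L 0)) := by ring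
    have h3 : |((3 : ℤ) ^ r - 2 ^ p) * S L 0| ≤ K + 3 ^ r * (6 * m) := by
      rw [e]
      refine (abs_add_le _ _).trans ?_
      rw [abs_mul, abs_of_pos (show (0 : ℤ) < 3 ^ r by positivity), abs_neg]
      have h5 : (0 : ℤ) < 3 ^ r := by positivity
      have h4 := mul_le_mul_of_nonneg_left h2 h5.le
      linarith
    rw [abs_mul, abs_of_nonneg h0] at h3
    have h6 : 1 ≤ |(3 : ℤ) ^ r - 2 ^ p| := Int.one_le_abs (sub_ne_zero.2 hne)
    have h7 : S L 0 ≤ |(3 : ℤ) ^ r - 2 ^ p| * S L 0 := le_mul_of_one_le_left h0 h6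
    linarith
  have h1 := hlow ((K + 3 ^ r * (6 * m)).toNat + 1)
  have h2 := hup ((K + 3 ^ r * (6 * m)).toNat + 1)
  have h3 := Int.self_le_toNat (K + 3 ^ r * (6 * m))
  push_cast at h1
  linarith

end Pool.Agent.Helper77.FRP
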